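import Pool.Agent.H82.RD.Targets

/-!
# SNU: choice of the parameters
-/

set_option autoImplicit false

open Pool.Agent.H82.RD Filter

namespace Pool.Agent.H93.RD

theorem Lr {r L X : ℕ} (h : r.factorial ≤ X) (hX : X < 2 ^ L) (hL : 2 ≤ L) :
    L ^ r ≤ 2 ^ (8 * L) := by
  obtain ⟨w, hw⟩ : ∃ w, w = Nat.clog 2 L := ⟨_, rfl⟩
  have h1 : L ≤ 2 ^ w := hw ▸ Nat.le_pow_clog (by norm_num) L
  have h2 : 2 ^ (w - 1) < L := hw ▸ Nat.pow_pred_clog_lt_self (by norm_num) (by omega)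
  have hw1 : 1 ≤ w := hw ▸ Nat.clog_pos (by norm_num) hL
  by_cases hc : w * r ≤ 8 * L
  · calc L ^ r ≤ (2 ^ w) ^ r := Nat.pow_le_pow_left h1 r
      _ = 2 ^ (w * r) := (pow_mul _ _ _).symm
      _ ≤ 2 ^ (8 * L) := Nat.pow_le_pow_right (by norm_num) hc
  · exfalso
    push Not at hc
    obtain ⟨t, ht⟩ : ∃ t, t = (w + 3) / 4 := ⟨_, rfl⟩
    obtain ⟨s, hs⟩ : ∃ s, s = r / 2 := ⟨_, rfl⟩
    have hst : 2 ^ t ≤ s := by
      by_contra hlt
      push Not at hlt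
      have hr : r < 2 ^ (t + 1) := by
        rw [pow_succ]
        omega
      have e1 : 2 ^ w = 2 * 2 ^ (w - 1) := by
        rw [← pow_succ', Nat.sub_add_cancel hw1]
      have a1 : 4 * 2 ^ w < w * r := by omega
      have a2 : w * r ≤ w * 2 ^ (t + 1) := Nat.mul_le_mul_left _ hr.le
      have a3 : w ≤ 2 ^ ((w + 1) / 2) := by
        have b1 : (w + 1) / 2 - 1 < 2 ^ ((w + 1) / 2 - 1) := Nat.lt_two_pow_self
        have b2 : 2 ^ ((w + 1) / 2) = 2 * 2 ^ ((w + 1) / 2 - 1) := by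
          rw [← pow_succ', Nat.sub_add_cancel (by omega)]
        omega
      have a4 : w * 2 ^ (t + 1) ≤ 2 ^ (w + 2) := by
        calc w * 2 ^ (t + 1) ≤ 2 ^ ((w + 1) / 2) * 2 ^ (t + 1) := Nat.mul_le_mul_right _ a3
          _ = 2 ^ ((w + 1) / 2 + (t + 1)) := (pow_add _ _ _).symm
          _ ≤ 2 ^ (w + 2) := Nat.pow_le_pow_right (by norm_num) (by omega)
      have a5 : 2 ^ (w + 2) = 4 * 2 ^ w := by
        rw [pow_add]
        ring
      omega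
    have h3 : s ^ (r - s) ≤ r.factorial := by
      have h := Nat.factorial_mul_pow_sub_le_factorial (n := s) (m := r) (by omega)
      have h' : 1 ≤ s.factorial := Nat.factorial_pos s
      calc s ^ (r - s) = 1 * s ^ (r - s) := (one_mul _).symm
        _ ≤ s.factorial * s ^ (r - s) := Nat.mul_le_mul_right _ h'
        _ ≤ _ := h
    have h4 : 2 ^ (t * (r - s)) ≤ s ^ (r - s) := by
      rw [pow_mul]
      exact Nat.pow_le_pow_left hst _
    have h5 : L < t * (r - s) := by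
      have b1 : w * r ≤ (4 * t) * (2 * (r - s)) := Nat.mul_le_mul (by omega) (by omega)
      have b2 : (4 * t) * (2 * (r - s)) = 8 * (t * (r - s)) := by ring
      omega
    have h6 : 2 ^ L < 2 ^ (t * (r - s)) := Nat.pow_lt_pow_right (by norm_num) h5
    omega

theorem two_mul_self_le {L : ℕ} : L + 1 ≤ 2 ^ L := Nat.lt_two_pow_self

/-- The condition `NC` for `A = B = L ^ 4`. -/
theorem NC_of {q L τ X Bd u : ℕ} (hq : 2 ≤ q) (hXL : X < 2 ^ L) (hBd : Bd ≤ X ^ 30)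
    (hL : 300 * (τ + 1) ≤ L) (hu1 : 1 ≤ u) (hu : u ≤ L) :
    NC q (L ^ 4) (L ^ 4) (τ * Bd ^ (τ + 1)) (X ^ τ) u := by
  have hL1 : 1 ≤ L := by omega
  have hXL' : X ≤ 2 ^ L := hXL.le
  have hBd' : Bd ≤ 2 ^ (30 * L) := by
    calc Bd ≤ X ^ 30 := hBd
      _ ≤ (2 ^ L) ^ 30 := Nat.pow_le_pow_left hXL' _
      _ = 2 ^ (30 * L) := by rw [← pow_mul, mul_comm]
  have hD : τ * Bd ^ (τ + 1) ≤ 2 ^ (31 * L * (τ + 1)) := by
    calc τ * Bd ^ (τ + 1) ≤ 2 ^ τ * (2 ^ (30 * L)) ^ (τ + 1) :=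
          Nat.mul_le_mul Nat.lt_two_pow_self.le (Nat.pow_le_pow_left hBd' _)
      _ = 2 ^ (τ + 30 * L * (τ + 1)) := by rw [← pow_mul, ← pow_add]
      _ ≤ 2 ^ (31 * L * (τ + 1)) := Nat.pow_le_pow_right (by norm_num) (by nlinarith)
  have hD2 : 2 * (τ * Bd ^ (τ + 1)) ^ 2 ≤ 2 ^ (63 * L * (τ + 1)) := by
    calc 2 * (τ * Bd ^ (τ + 1)) ^ 2 ≤ 2 ^ 1 * (2 ^ (31 * L * (τ + 1))) ^ 2 :=
          Nat.mul_le_mul (by norm_num) (Nat.pow_le_pow_left hD _)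
      _ = 2 ^ (1 + 31 * L * (τ + 1) * 2) := by rw [← pow_mul, ← pow_add]
      _ ≤ 2 ^ (63 * L * (τ + 1)) := Nat.pow_le_pow_right (by norm_num) (by nlinarith)
  have hLL : L ≤ 2 ^ L := Nat.lt_two_pow_self.le
  have hL4 : L ^ 4 ≤ 2 ^ (4 * L) := by
    calc L ^ 4 ≤ (2 ^ L) ^ 4 := Nat.pow_le_pow_left hLL _
      _ = 2 ^ (4 * L) := by rw [← pow_mul, mul_comm]
  have hLL4 : L ≤ L ^ 4 := Nat.le_self_pow (by norm_num) L
  have hc : L ^ 4 * (L ^ 4 + u).choose u ≤ 2 ^ (9 * L ^ 2) := by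
    have c1 : (L ^ 4 + u).choose u ≤ (L ^ 4 + u) ^ u := Nat.choose_le_pow _ _
    have c2 : L ^ 4 + u ≤ 2 ^ (5 * L) := by
      calc L ^ 4 + u ≤ 2 ^ (4 * L) + 2 ^ (4 * L) := by omega
        _ = 2 ^ (4 * L + 1) := by rw [pow_succ]; ring
        _ ≤ 2 ^ (5 * L) := Nat.pow_le_pow_right (by norm_num) (by omega)
    calc L ^ 4 * (L ^ 4 + u).choose u ≤ 2 ^ (4 * L) * (2 ^ (5 * L)) ^ L :=
          Nat.mul_le_mul hL4 (c1.trans ((Nat.pow_le_pow_left c2 u).trans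
            (Nat.pow_le_pow_right (by positivity) hu)))
      _ = 2 ^ (4 * L + 5 * L * L) := by rw [← pow_mul, ← pow_add]
      _ ≤ 2 ^ (9 * L ^ 2) := Nat.pow_le_pow_right (by norm_num) (by nlinarith)
  have hm : ((u + 1) * (2 * (τ * Bd ^ (τ + 1)) ^ 2) ^ (u + 1)) ^ L ^ 4 ≤
      2 ^ (127 * L ^ 2 * (τ + 1) * L ^ 4) := by
    rw [pow_mul]
    refine Nat.pow_le_pow_left ?_ _
    calc (u + 1) * (2 * (τ * Bd ^ (τ + 1)) ^ 2) ^ (u + 1)
        ≤ 2 ^ L * (2 ^ (63 * L * (τ + 1))) ^ (L + 1) :=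
          Nat.mul_le_mul ((by omega : u + 1 ≤ L + 1).trans two_mul_self_le)
            ((Nat.pow_le_pow_left hD2 _).trans (Nat.pow_le_pow_right (by positivity) (by omega)))
      _ = 2 ^ (L + 63 * L * (τ + 1) * (L + 1)) := by rw [← pow_mul, ← pow_add]
      _ ≤ 2 ^ (127 * L ^ 2 * (τ + 1)) := Nat.pow_le_pow_right (by norm_num) (by
          have e1 : L * (τ + 1) ≤ L * L * (τ + 1) :=
            Nat.mul_le_mul_right _ (Nat.le_mul_of_pos_left _ hL1)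
          have e2 : L ≤ L * (τ + 1) := Nat.le_mul_of_pos_right _ (by omega)
          nlinarith)
  have hH : ((X ^ τ) ^ (u + 1)) ^ L ^ 4 ≤ 2 ^ (2 * τ * L ^ 6) := by
    calc ((X ^ τ) ^ (u + 1)) ^ L ^ 4 ≤ (((2 ^ L) ^ τ) ^ (L + 1)) ^ L ^ 4 :=
          Nat.pow_le_pow_left ((Nat.pow_le_pow_left (Nat.pow_le_pow_left hXL' _) _).trans
            (Nat.pow_le_pow_right (by positivity) (by omega))) _
      _ = 2 ^ (L * τ * (L + 1) * L ^ 4) := by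
          rw [← pow_mul, ← pow_mul, ← pow_mul]
          congr 1
          ring
      _ ≤ 2 ^ (2 * τ * L ^ 6) := Nat.pow_le_pow_right (by norm_num) (by
          have e1 : L + 1 ≤ 2 * L := by omega
          calc L * τ * (L + 1) * L ^ 4 ≤ L * τ * (2 * L) * L ^ 4 :=
                Nat.mul_le_mul_right _ (Nat.mul_le_mul_left _ e1)
            _ = 2 * τ * L ^ 6 := by ring)
  have hexp : 9 * L ^ 2 + (127 * L ^ 2 * (τ + 1) * L ^ 4 + 2 * τ * L ^ 6) <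
      (L ^ 4 * L ^ 4 / u - 2 * L ^ 4) / 2 := by
    have d1 : L ^ 7 ≤ L ^ 4 * L ^ 4 / u := by
      rw [Nat.le_div_iff_mul_le (by omega)]
      calc L ^ 7 * u ≤ L ^ 7 * L := Nat.mul_le_mul_left _ hu
        _ = L ^ 4 * L ^ 4 := by ring
    have d2 : L ^ 2 ≤ L ^ 6 := Nat.pow_le_pow_right hL1 (by norm_num)
    have d3 : L ^ 4 ≤ L ^ 6 := Nat.pow_le_pow_right hL1 (by norm_num)
    have d4 : 1 ≤ L ^ 6 := Nat.one_le_pow _ _ hL1
    have d5 : 300 * (τ + 1) * L ^ 6 ≤ L ^ 7 := by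
      calc 300 * (τ + 1) * L ^ 6 ≤ L * L ^ 6 := Nat.mul_le_mul_right _ hL
        _ = L ^ 7 := by ring
    have d6 : 127 * L ^ 2 * (τ + 1) * L ^ 4 = 127 * ((τ + 1) * L ^ 6) := by ring
    have d7 : 2 * τ * L ^ 6 ≤ 2 * ((τ + 1) * L ^ 6) := by nlinarith
    have d8 : 300 * (τ + 1) * L ^ 6 = 300 * ((τ + 1) * L ^ 6) := by ring
    have d9 : L ^ 6 ≤ (τ + 1) * L ^ 6 := Nat.le_mul_of_pos_left _ (by omega)
    rw [d6]
    rw [d8] at d5
    omega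
  unfold NC
  calc L ^ 4 * (L ^ 4 + u).choose u * (((u + 1) * (2 * (τ * Bd ^ (τ + 1)) ^ 2) ^ (u + 1)) ^ L ^ 4 *
        ((X ^ τ) ^ (u + 1)) ^ L ^ 4)
      ≤ 2 ^ (9 * L ^ 2) * (2 ^ (127 * L ^ 2 * (τ + 1) * L ^ 4) * 2 ^ (2 * τ * L ^ 6)) :=
        Nat.mul_le_mul hc (Nat.mul_le_mul hm hH)
    _ = 2 ^ (9 * L ^ 2 + (127 * L ^ 2 * (τ + 1) * L ^ 4 + 2 * τ * L ^ 6)) := by
        rw [← pow_add, ← pow_add]
    _ < 2 ^ ((L ^ 4 * L ^ 4 / u - 2 * L ^ 4) / 2) := Nat.pow_lt_pow_right (by norm_num) hexp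
    _ ≤ q ^ ((L ^ 4 * L ^ 4 / u - 2 * L ^ 4) / 2) := Nat.pow_le_pow_left hq _

/-- Growth of powers against logarithms. -/
theorem ev_pow (c : ℝ) (hc : 0 < c) (K : ℕ) :
    ∀ᶠ X : ℕ in atTop, 2 * ((Nat.log 2 X + 1 : ℕ) : ℝ) ^ 8 + K * ((Nat.log 2 X + 1 : ℕ) : ℝ) + K ≤
      (X : ℝ) ^ c := by
  have h1 : ∀ᶠ x : ℝ in atTop, Real.log x ^ (9 : ℝ) ≤ x ^ c := by
    have h := (isLittleO_log_rpow_rpow_atTop (9 : ℝ) hc).bound one_pos
    filter_upwards [h, eventually_ge_atTop 1] with x hx hx1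
    rw [one_mul, Real.norm_eq_abs, Real.norm_eq_abs,
      abs_of_nonneg (Real.rpow_nonneg (show (0 : ℝ) ≤ x by linarith) c)] at hx
    exact (le_abs_self _).trans hx
  have h2 : ∀ᶠ x : ℝ in atTop, 2 * 3 ^ 8 + 4 * K + 1 ≤ Real.log x :=
    Real.tendsto_log_atTop.eventually_ge_atTop _
  have h3 := (tendsto_natCast_atTop_atTop (R := ℝ)).eventually (h1.and h2)
  filter_upwards [h3, eventually_ge_atTop 2] with X hX hX2
  obtain ⟨g1, g2⟩ := hX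
  have hX0 : X ≠ 0 := by omega
  obtain ⟨y, hy⟩ : ∃ y, y = Real.log (X : ℝ) := ⟨_, rfl⟩
  rw [← hy] at g1 g2
  have hK : (0 : ℝ) ≤ K := Nat.cast_nonneg K
  have hy1 : 1 ≤ y := by nlinarith
  have hlog : ((Nat.log 2 X + 1 : ℕ) : ℝ) ≤ 3 * y := by
    have e1 : (2 : ℝ) ^ (Nat.log 2 X) ≤ X := by exact_mod_cast Nat.pow_log_le_self 2 hX0
    have e2 : Nat.log 2 X * Real.log 2 ≤ y := by
      rw [hy, ← Real.log_pow]
      exact Real.log_le_log (by positivity) e1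
    have e3 : (0.5 : ℝ) ≤ Real.log 2 := by
      have := Real.log_two_gt_d9
      linarith
    have e4 : (Nat.log 2 X : ℝ) * 0.5 ≤ y :=
      (mul_le_mul_of_nonneg_left e3 (Nat.cast_nonneg _)).trans e2
    push_cast
    linarith
  have hnn : (0 : ℝ) ≤ ((Nat.log 2 X + 1 : ℕ) : ℝ) := Nat.cast_nonneg _
  have hp : ((Nat.log 2 X + 1 : ℕ) : ℝ) ^ 8 ≤ (3 * y) ^ 8 := pow_le_pow_left₀ hnn hlog 8
  have g1' : y ^ 9 ≤ (X : ℝ) ^ c := by
    have : y ^ (9 : ℝ) = y ^ 9 := by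
      rw [show (9 : ℝ) = ((9 : ℕ) : ℝ) by norm_num, Real.rpow_natCast]
    rw [this] at g1
    exact g1
  refine le_trans ?_ g1'
  have y8 : 1 ≤ y ^ 8 := one_le_pow₀ hy1
  have yy8 : y ≤ y ^ 8 := by
    calc y = y ^ 1 := (pow_one y).symm
      _ ≤ y ^ 8 := pow_le_pow_right₀ hy1 (by norm_num)
  calc 2 * ((Nat.log 2 X + 1 : ℕ) : ℝ) ^ 8 + K * ((Nat.log 2 X + 1 : ℕ) : ℝ) + K
      ≤ 2 * (3 * y) ^ 8 + K * (3 * y) + K := by
        gcongr
    _ ≤ 2 * (3 * y) ^ 8 + K * (3 * y ^ 8) + K * y ^ 8 := by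
        have a1 : K * (3 * y) ≤ K * (3 * y ^ 8) := by gcongr
        have a2 : (K : ℝ) * 1 ≤ K * y ^ 8 := by gcongr
        linarith
    _ = (2 * 3 ^ 8 + 4 * K) * y ^ 8 := by ring
    _ ≤ y * y ^ 8 := by
        apply mul_le_mul_of_nonneg_right (by linarith) (by positivity)
    _ = y ^ 9 := by ring

theorem pf_SNU : T_SNU := by
  intro γ c hγ hc
  obtain ⟨τ, hτ⟩ : ∃ τ : ℕ, τ = ⌈120 / γ⌉₊ + 1 := ⟨_, rfl⟩
  have hτγ : 120 ≤ γ * τ := by
    have h1 : 120 / γ ≤ (⌈120 / γ⌉₊ : ℝ) := Nat.le_ceil _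
    have h2 : (⌈120 / γ⌉₊ : ℝ) ≤ τ := by rw [hτ]; push_cast; linarith
    have h3 : 120 / γ ≤ τ := h1.trans h2
    rw [div_le_iff₀ hγ] at h3
    linarith
  have hev1 := ev_pow c hc (τ + 100)
  have hev2 : ∀ᶠ X : ℕ in atTop, (2 * τ : ℝ) ≤ (X : ℝ) ^ γ :=
    ((tendsto_rpow_atTop hγ).comp tendsto_natCast_atTop_atTop).eventually_ge_atTop _
  obtain ⟨X₁, hX₁⟩ := eventually_atTop.1 (hev1.and hev2)
  refine ⟨max X₁ (2 ^ (300 * (τ + 1) + τ ^ 2 + τ)), τ, ?_, by omega, ?_⟩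
  · refine le_max_of_le_right ?_
    calc 2 = 2 ^ 1 := rfl
      _ ≤ _ := Nat.pow_le_pow_right (by norm_num) (by omega)
  intro X q r e κ N Bd hX hq hqX hr he hBd1 hBd hκ hN
  obtain ⟨hA1, hA2⟩ := hX₁ X ((le_max_left _ _).trans hX)
  have hX2 : 2 ^ (300 * (τ + 1) + τ ^ 2 + τ) ≤ X := (le_max_right _ _).trans hX
  have hX0 : X ≠ 0 := by
    have : 0 < 2 ^ (300 * (τ + 1) + τ ^ 2 + τ) := by positivity
    omega
  obtain ⟨L, hLdef⟩ : ∃ L, L = Nat.log 2 X + 1 := ⟨_, rfl⟩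
  rw [← hLdef] at hA1
  have hXL : X < 2 ^ L := by
    rw [hLdef]
    exact Nat.lt_pow_succ_log_self (by norm_num) X
  have hXL2 : 2 ^ (L - 1) ≤ X := by
    rw [hLdef, Nat.add_sub_cancel]
    exact Nat.pow_log_le_self 2 hX0
  have hL : 300 * (τ + 1) + τ ^ 2 + τ ≤ L := by
    have : 300 * (τ + 1) + τ ^ 2 + τ ≤ Nat.log 2 X := Nat.le_log_of_pow_le (by norm_num) hX2
    omega
  have hL300 : 300 * (τ + 1) ≤ L := by
    have : 0 ≤ τ ^ 2 := Nat.zero_le _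
    omega
  have hL2 : 2 ≤ L := by omega
  have hrL : r ≤ L := by
    by_contra hlt
    push Not at hlt
    have h1 : 2 ^ (r - 1) ≤ r.factorial := by
      have := Nat.factorial_mul_pow_sub_le_factorial (n := 1) (m := r) (by omega)
      have h2 : ∀ m : ℕ, 2 ^ m ≤ (m + 1).factorial := by
        intro m
        induction m with
        | zero => simp
        | succ m ih =>
          rw [pow_succ, Nat.factorial_succ]
          nlinarith
      have h3 := h2 (r - 1)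
      rw [Nat.sub_add_cancel (by omega)] at h3
      exact h3
    have h2 : 2 ^ L ≤ 2 ^ (r - 1) := Nat.pow_le_pow_right (by norm_num) (by omega)
    omega
  have hκ31 : κ ≤ 31 * L := by
    have h1 : 2 ^ κ ≤ 2 ^ (31 * L) := by
      calc 2 ^ κ ≤ q ^ κ := Nat.pow_le_pow_left hq _
        _ ≤ q * Bd := hκ
        _ ≤ 2 ^ L * (2 ^ L) ^ 30 := Nat.mul_le_mul (hqX.trans hXL.le)
            (hBd.trans (Nat.pow_le_pow_left hXL.le _))
        _ = 2 ^ (31 * L) := by rw [← pow_succ', ← pow_mul, mul_comm]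
    exact (Nat.pow_le_pow_iff_right (by norm_num)).1 h1
  have heL : 2 * L ^ 8 + (τ + 100) * L + (τ + 100) ≤ e := by
    have h1 := hA1.trans he
    exact_mod_cast h1
  refine ⟨L ^ 4, L ^ 4, Nat.one_le_pow _ _ (by omega), ?_, ?_, ?_, ?_, ?_⟩
  · calc 2 ≤ L := hL2
      _ ≤ L ^ 4 := Nat.le_self_pow (by norm_num) L
  · have e1 : L ^ 4 * L ^ 4 = L ^ 8 := by ring
    rw [e1]
    have e2 : (τ + 100) * L = τ * L + 100 * L := by ring
    have e3 : 0 ≤ τ * L := Nat.zero_le _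
    omega
  · have e2 : (τ + 100) * L = τ * L + 100 * L := by ring
    have h1 : L * τ ≤ e - 3 - κ := by
      have : L * τ = τ * L := mul_comm _ _
      have h8 : 0 ≤ L ^ 8 := Nat.zero_le _
      omega
    calc X ^ τ < (2 ^ L) ^ τ := Nat.pow_lt_pow_left hXL (by omega)
      _ = 2 ^ (L * τ) := by rw [← pow_mul]
      _ ≤ 2 ^ (e - 3 - κ) := Nat.pow_le_pow_right (by norm_num) h1
      _ ≤ q ^ (e - 3 - κ) := Nat.pow_le_pow_left hq _
  · intro u hu1 hu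
    exact NC_of hq hXL hBd hL300 hu1 (hu.trans hrL)
  · have hLr := Lr hr hXL hL2
    have hLL : L + 1 ≤ 2 ^ L := two_mul_self_le
    have hLL' : L ≤ 2 ^ L := by omega
    have hL4 : L ^ 4 ≤ 2 ^ (4 * L) := by
      calc L ^ 4 ≤ (2 ^ L) ^ 4 := Nat.pow_le_pow_left hLL' _
        _ = 2 ^ (4 * L) := by rw [← pow_mul, mul_comm]
    have hmid : ((r + 1) * L ^ 4) ^ r ≤ 2 ^ (48 * L) := by
      calc ((r + 1) * L ^ 4) ^ r ≤ (L ^ 6) ^ r := by
            refine Nat.pow_le_pow_left ?_ _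
            calc (r + 1) * L ^ 4 ≤ (L * L) * L ^ 4 := Nat.mul_le_mul_right _ (by nlinarith)
              _ = L ^ 6 := by ring
        _ = (L ^ r) ^ 6 := by rw [← pow_mul, ← pow_mul, mul_comm]
        _ ≤ (2 ^ (8 * L)) ^ 6 := Nat.pow_le_pow_left hLr _
        _ = 2 ^ (48 * L) := by rw [← pow_mul]; congr 1; ring
    have hlhs : (r + 1) * L ^ 4 * ((r + 1) * L ^ 4) ^ r * (4 * X) ≤ 2 ^ (55 * L) := by
      calc (r + 1) * L ^ 4 * ((r + 1) * L ^ 4) ^ r * (4 * X)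
          ≤ 2 ^ L * 2 ^ (4 * L) * 2 ^ (48 * L) * (2 ^ L * 2 ^ L) :=
            Nat.mul_le_mul (Nat.mul_le_mul (Nat.mul_le_mul (by omega) hL4) hmid)
              (Nat.mul_le_mul (by
                calc 4 = 2 ^ 2 := rfl
                  _ ≤ 2 ^ L := Nat.pow_le_pow_right (by norm_num) hL2) hXL.le)
        _ = 2 ^ (55 * L) := by
            rw [← pow_add, ← pow_add, ← pow_add, ← pow_add]
            congr 1
            ring
    -- lower bound for the binomial coefficient, over the reals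
    have hτN : 2 * τ ≤ N := by
      have h1 : (2 * τ : ℝ) ≤ N := hA2.trans hN
      exact_mod_cast h1
    have hch : (N + 1 - τ) ^ τ ≤ τ.factorial * N.choose τ := by
      have h1 := Nat.pow_le_choose (α := ℝ) τ N
      have hf : (0 : ℝ) < (τ.factorial : ℝ) := by exact_mod_cast Nat.factorial_pos τ
      rw [div_le_iff₀ hf] at h1
      have h2 : ((N + 1 - τ : ℕ) : ℝ) ^ τ ≤ (τ.factorial : ℝ) * N.choose τ := by linarith
      exact_mod_cast h2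
    have hN2 : N ≤ 2 * (N + 1 - τ) := by omega
    have hfac : τ.factorial ≤ 2 ^ (τ ^ 2) := by
      calc τ.factorial ≤ τ ^ τ := Nat.factorial_le_pow τ
        _ ≤ (2 ^ τ) ^ τ := Nat.pow_le_pow_left Nat.lt_two_pow_self.le _
        _ = 2 ^ (τ ^ 2) := by rw [← pow_mul, sq]
    have hNτ : 2 ^ (60 * L) ≤ N ^ τ := by
      have h1 : ((2 : ℝ) ^ (60 * L)) ≤ (N : ℝ) ^ τ := by
        have hX1 : (1 : ℝ) ≤ X := by exact_mod_cast Nat.one_le_iff_ne_zero.2 hX0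
        have h2 : ((X : ℝ) ^ γ) ^ τ ≤ (N : ℝ) ^ τ :=
          pow_le_pow_left₀ (Real.rpow_nonneg (by linarith) _) hN τ
        refine le_trans ?_ h2
        rw [← Real.rpow_natCast ((X : ℝ) ^ γ) τ, ← Real.rpow_mul (show (0 : ℝ) ≤ X by linarith)]
        have h3 : (X : ℝ) ^ (120 : ℝ) ≤ (X : ℝ) ^ (γ * τ) := Real.rpow_le_rpow_of_exponent_le hX1 hτγ
        refine le_trans ?_ h3
        have h4 : (X : ℝ) ^ (120 : ℝ) = (X : ℝ) ^ 120 := by
          rw [show (120 : ℝ) = ((120 : ℕ) : ℝ) by norm_num, Real.rpow_natCast]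
        rw [h4]
        have h5 : 2 ^ (60 * L) ≤ X ^ 120 := by
          calc 2 ^ (60 * L) ≤ 2 ^ ((L - 1) * 120) := Nat.pow_le_pow_right (by norm_num) (by omega)
            _ = (2 ^ (L - 1)) ^ 120 := by rw [← pow_mul]
            _ ≤ X ^ 120 := Nat.pow_le_pow_left hXL2 _
        exact_mod_cast h5
      exact_mod_cast h1
    have hfin : 2 ^ (60 * L) ≤ 2 ^ τ * (2 ^ (τ ^ 2) * N.choose τ) := by
      calc 2 ^ (60 * L) ≤ N ^ τ := hNτ
        _ ≤ (2 * (N + 1 - τ)) ^ τ := Nat.pow_le_pow_left hN2 _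
        _ = 2 ^ τ * (N + 1 - τ) ^ τ := mul_pow _ _ _
        _ ≤ 2 ^ τ * (τ.factorial * N.choose τ) := Nat.mul_le_mul_left _ hch
        _ ≤ _ := Nat.mul_le_mul_left _ (Nat.mul_le_mul_right _ hfac)
    have hs : 2 ^ (60 * L) = 2 ^ (τ + τ ^ 2) * 2 ^ (60 * L - (τ + τ ^ 2)) := by
      rw [← pow_add]
      congr 1
      omega
    have hs2 : 2 ^ (60 * L - (τ + τ ^ 2)) ≤ N.choose τ := by
      have h1 : 2 ^ (τ + τ ^ 2) * 2 ^ (60 * L - (τ + τ ^ 2)) ≤ 2 ^ (τ + τ ^ 2) * N.choose τ := by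
        rw [← hs]
        refine hfin.trans (le_of_eq ?_)
        rw [pow_add]
        ring
      exact Nat.le_of_mul_le_mul_left h1 (by positivity)
    calc (r + 1) * L ^ 4 * ((r + 1) * L ^ 4) ^ r * (4 * X) ≤ 2 ^ (55 * L) := hlhs
      _ < 2 ^ (60 * L - (τ + τ ^ 2)) := Nat.pow_lt_pow_right (by norm_num) (by omega)
      _ ≤ N.choose τ := hs2

end Pool.Agent.H93.RD
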