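import Pool.Agent.H82.RD.Targets

/-!
# MTH: the machine (induction on the dimension)
-/

set_option autoImplicit false

open Pool.Agent.H82.RD

namespace Pool.Agent.H93.RD

theorem pf_MTH (hMZ0 : T_MZ0) (hMRS : T_MRS) (hMST : T_MST) : T_MTH := by
  intro q _ r
  induction r using Nat.strong_induction_on with
  | _ r ih =>
    intro ι S W π den num ζ κ e g D H A B hM hA hB he hH hNC
    rcases r with _ | v
    · have h := hMZ0 q ι S W π den num ζ κ e g D H hM hH
      simp only [zero_add, one_mul, pow_zero, mul_one]
      omega
    · rcases hMST q v ι S W π den num ζ κ e g D H A B hM hA hB he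
        (hNC (v + 1) (by omega) le_rfl) with h | ⟨U, hU, hcard⟩
      · refine h.trans ?_
        have h1 : A ^ (v + 1) ≤ ((v + 1 + 1) * A) ^ (v + 1) :=
          Nat.pow_le_pow_left (Nat.le_mul_of_pos_left _ (by omega)) _
        calc (v + 2) * A ^ (v + 1) * B = (v + 1 + 1) * B * A ^ (v + 1) := by ring
          _ ≤ (v + 1 + 1) * B * ((v + 1 + 1) * A) ^ (v + 1) := Nat.mul_le_mul_left _ h1
      · classical
        have hu : Module.finrank ℚ_[q] U < v + 1 := by
          have := Submodule.finrank_lt hU
          simpa using this
        obtain ⟨u', hu'⟩ : ∃ u', u' = Module.finrank ℚ_[q] U := ⟨_, rfl⟩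
        rw [← hu'] at hu hcard
        have hIH := ih (Module.finrank ℚ_[q] U) (by omega)
        have hfib : ∀ b ∈ S.image (fun s => U.mkQ fun l => (W s l : ℚ_[q])),
            (S.filter fun s => (fun s => U.mkQ fun l => (W s l : ℚ_[q])) s = b).card ≤
              (u' + 1) * B * ((u' + 1) * A) ^ u' := by
          intro b _
          obtain ⟨W', num', ζ', hM'⟩ := hMRS q (v + 1) ι S W π den num ζ κ e g D H U
            (S.filter fun s => (fun s => U.mkQ fun l => (W s l : ℚ_[q])) s = b) hM
            (Finset.filter_subset _ _) (by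
              intro s hs s' hs'
              rw [Finset.mem_filter] at hs hs'
              have h1 : U.mkQ (fun l => (W s l : ℚ_[q])) = U.mkQ (fun l => (W s' l : ℚ_[q])) :=
                hs.2.trans hs'.2.symm
              rw [Submodule.mkQ_apply, Submodule.mkQ_apply, Submodule.Quotient.eq] at h1
              have h2 : (fun l => ((W s l - W s' l : ℤ_[q]) : ℚ_[q])) =
                  (fun l => (W s l : ℚ_[q])) - fun l => (W s' l : ℚ_[q]) := by
                funext l
                simp
              rw [h2]
              exact h1)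
          have h3 := hIH ι _ W' π den num' ζ' κ e g D H A B hM' hA hB he hH
            (fun u h1 h2 => hNC u h1 (by omega))
          rw [← hu'] at h3
          exact h3
        have htot := Finset.card_le_mul_card_image S _ hfib
        have hnc : ((fun s => U.mkQ fun l => (W s l : ℚ_[q])) '' (S : Set ι)).ncard =
            (S.image (fun s => U.mkQ fun l => (W s l : ℚ_[q]))).card := by
          rw [← Finset.coe_image, Set.ncard_coe_finset]
        rw [hnc] at hcard
        refine htot.trans ((Nat.mul_le_mul_left _ hcard).trans ?_)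
        have h4 : (u' + 1) ^ (u' + 1) ≤ (v + 1 + 1) ^ (v + 1) :=
          (Nat.pow_le_pow_left (by omega : u' + 1 ≤ v + 1 + 1) _).trans
            (Nat.pow_le_pow_right (by omega) (by omega))
        have h5 : A ^ u' * A ^ (v + 1 - u') = A ^ (v + 1) := by
          rw [← pow_add]
          congr 1
          omega
        calc (u' + 1) * B * ((u' + 1) * A) ^ u' * ((v + 2) * A ^ (v + 1 - u'))
            = (v + 1 + 1) * B * ((u' + 1) ^ (u' + 1) * (A ^ u' * A ^ (v + 1 - u'))) := by
              rw [mul_pow]
              ring
          _ = (v + 1 + 1) * B * ((u' + 1) ^ (u' + 1) * A ^ (v + 1)) := by rw [h5]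
          _ ≤ (v + 1 + 1) * B * ((v + 1 + 1) ^ (v + 1) * A ^ (v + 1)) :=
              Nat.mul_le_mul_left _ (Nat.mul_le_mul_right _ h4)
          _ = (v + 1 + 1) * B * ((v + 1 + 1) * A) ^ (v + 1) := by rw [mul_pow]

end Pool.Agent.H93.RD
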